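import Pool.Agent.H.MP_627409_gt.A

namespace Pool.Agent.Results.MP_627409_gt.No

open MeasureTheory

abbrev E := EuclideanSpace ℝ (Fin 4)

noncomputable def J0 (x : E) : E := !₂[-x 1, x 0, -x 3, x 2]

noncomputable def J1 (x : E) : E := !₂[-x 2, x 3, x 0, -x 1]

noncomputable def J2 (x : E) : E := !₂[-x 3, -x 2, x 1, x 0]

noncomputable def g (μ : ℝ) (x u v : E) : ℝ :=
  inner ℝ u v + (μ - 1) * inner ℝ u (J0 x) * inner ℝ v (J0 x)

noncomputable def koszul (μ : ℝ) (X Y Z : E → E) (x : E) : ℝ :=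
  (fderiv ℝ (fun y => g μ y (Y y) (Z y)) x (X x) + fderiv ℝ (fun y => g μ y (X y) (Z y)) x (Y x)
    - fderiv ℝ (fun y => g μ y (X y) (Y y)) x (Z x)
    + g μ x (VectorField.lieBracket ℝ X Y x) (Z x) - g μ x (VectorField.lieBracket ℝ X Z x) (Y x)
    - g μ x (VectorField.lieBracket ℝ Y Z x) (X x)) / 2

noncomputable def frame (μ : ℝ) : Fin 3 → E → E := ![fun x => (√μ)⁻¹ • J0 x, J1, J2]

noncomputable def normSq (μ : ℝ) (V : E → E) (x : E) : ℝ :=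
  ∑ i, ∑ j, koszul μ (frame μ i) V (frame μ j) x ^ 2

noncomputable def dv (μ : ℝ) : Measure (Metric.sphere (0 : E) 1) :=
  ENNReal.ofReal (√μ) • (volume : Measure E).toSphere

noncomputable def energy (μ : ℝ) (V : E → E) : ℝ :=
  3 / 2 * (dv μ).real Set.univ + 1 / 2 * ∫ x, normSq μ V x.1 ∂(dv μ)

theorem result : ∃ μ : ℝ, 1 < μ ∧ ∃ V : E → E, ContDiff ℝ (⊤ : ℕ∞) V ∧
    (∀ x ∈ Metric.sphere (0 : E) 1, inner ℝ (V x) x = 0 ∧ g μ x (V x) (V x) = 1) ∧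
    Integrable (fun x : Metric.sphere (0 : E) 1 => normSq μ V x.1) (dv μ) ∧
    energy μ V < (3 / 2 + μ + 2 * ((1 - μ) / μ)) * (dv μ).real Set.univ :=
  Pool.Agent.H.MP_627409_gt.main

end Pool.Agent.Results.MP_627409_gt.No
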